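import Pool.Agent.Helper49.RU.St

/-!
Project RU, module CUB: phase vectors on a subcube.
-/

set_option autoImplicit false

namespace Pool.Agent.Helper84.RU

open Pool.Agent.Helper49.RU
open MeasureTheory Filter Topology Complex
open scoped ENNReal Cardinal ComplexConjugate

theorem norm_om : ‖om‖ = 1 := by
  have h : (2 * Real.pi * Complex.I / 3 : ℂ) = ((2 * Real.pi / 3 : ℝ) : ℂ) * Complex.I := by
    push_cast
    ring
  rw [om, h, Complex.norm_exp_ofReal_mul_I]

theorem norm_chi0 (a : Fin 3) (x : Q) : ‖chi0 a x‖ = 1 := by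
  rw [chi0, norm_pow, norm_om, one_pow]

/-- The normalising factor outside `S`. -/
noncomputable def nfc (k : ℕ) (S : Finset (Fin k)) : ℂ :=
  (((Real.sqrt 3) ^ (Sᶜ.card))⁻¹ : ℝ)

/-- The basis of the subcube. -/
noncomputable def uu (k : ℕ) (S : Finset (Fin k)) (q : Fin k → Q)
    (σ : {x // x ∈ S} → Fin 3) : V k :=
  WithLp.toLp 2 (fun t => if (∀ j : {x // x ∈ S}, t j = σ j) then
    nfc k S * ∏ j ∈ Sᶜ, chi0 (t j) (q j) else 0)

theorem uu_apply (k : ℕ) (S : Finset (Fin k)) (q : Fin k → Q)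
    (σ : {x // x ∈ S} → Fin 3) (t : Fin k → Fin 3) :
    uu k S q σ t = if (∀ j : {x // x ∈ S}, t j = σ j) then
      nfc k S * ∏ j ∈ Sᶜ, chi0 (t j) (q j) else 0 := rfl

theorem card_fib (k : ℕ) (S : Finset (Fin k)) (σ : {x // x ∈ S} → Fin 3) :
    (Finset.univ.filter (fun t : Fin k → Fin 3 => ∀ j : {x // x ∈ S}, t j = σ j)).card
      = 3 ^ (Sᶜ.card) := by
  classical
  have h : (Finset.univ.filter (fun t : Fin k → Fin 3 => ∀ j : {x // x ∈ S}, t j = σ j))
      = Fintype.piFinset (fun j => if h : j ∈ S then {σ ⟨j, h⟩} else Finset.univ) := by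
    ext t
    simp only [Finset.mem_filter, Finset.mem_univ, true_and, Fintype.mem_piFinset]
    constructor
    · intro ht j
      by_cases hj : j ∈ S
      · rw [dif_pos hj, Finset.mem_singleton]
        exact ht ⟨j, hj⟩
      · rw [dif_neg hj]
        exact Finset.mem_univ _
    · intro ht j
      have := ht j.1
      rw [dif_pos j.2, Finset.mem_singleton] at this
      exact this
  rw [h, Fintype.card_piFinset, ← Finset.prod_mul_prod_compl S]
  have h1 : ∏ i ∈ S, (if h : i ∈ S then ({σ ⟨i, h⟩} : Finset (Fin 3)) else Finset.univ).card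
      = 1 := by
    refine Finset.prod_eq_one (fun i hi => ?_)
    rw [dif_pos hi, Finset.card_singleton]
  have h2 : ∏ i ∈ Sᶜ, (if h : i ∈ S then ({σ ⟨i, h⟩} : Finset (Fin 3)) else Finset.univ).card
      = 3 ^ (Sᶜ.card) := by
    rw [← Finset.prod_const]
    refine Finset.prod_congr rfl (fun i hi => ?_)
    rw [dif_neg (Finset.mem_compl.1 hi)]
    simp
  rw [h1, h2, one_mul]

theorem norm_uu (k : ℕ) (S : Finset (Fin k)) (q : Fin k → Q)
    (σ : {x // x ∈ S} → Fin 3) : ‖uu k S q σ‖ = 1 := by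
  classical
  have h : ‖uu k S q σ‖ ^ 2 = 1 := by
    rw [EuclideanSpace.norm_sq_eq]
    have h1 : ∀ t : Fin k → Fin 3, ‖uu k S q σ t‖ ^ 2 =
        if (∀ j : {x // x ∈ S}, t j = σ j) then (((3 : ℝ) ^ (Sᶜ.card))⁻¹) else 0 := by
      intro t
      rw [uu_apply]
      by_cases ht : ∀ j : {x // x ∈ S}, t j = σ j
      · rw [if_pos ht, if_pos ht, norm_mul, norm_prod,
          Finset.prod_eq_one (fun i _ => norm_chi0 _ _), mul_one, nfc, Complex.norm_real,
          Real.norm_of_nonneg (by positivity), inv_pow, ← pow_mul, mul_comm, pow_mul,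
          Real.sq_sqrt (by norm_num)]
      · rw [if_neg ht, if_neg ht]
        simp
    rw [Finset.sum_congr rfl (fun t _ => h1 t), ← Finset.sum_filter, Finset.sum_const, card_fib,
      nsmul_eq_mul]
    push_cast
    exact mul_inv_cancel₀ (by positivity)
  have h2 : 0 ≤ ‖uu k S q σ‖ := norm_nonneg _
  nlinarith

theorem inner_uu (k : ℕ) (S : Finset (Fin k)) (q : Fin k → Q)
    (σ σ' : {x // x ∈ S} → Fin 3) (h : σ ≠ σ') : inner ℂ (uu k S q σ) (uu k S q σ') = (0 : ℂ) := by
  rw [PiLp.inner_apply]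
  refine Finset.sum_eq_zero (fun t _ => ?_)
  rw [uu_apply, uu_apply]
  by_cases ht : ∀ j : {x // x ∈ S}, t j = σ j
  · have ht' : ¬ ∀ j : {x // x ∈ S}, t j = σ' j := by
      intro h'
      apply h
      funext j
      rw [← ht j, h' j]
    rw [if_neg ht', inner_zero_right]
  · rw [if_neg ht, inner_zero_left]

theorem hCUB : StCUB := by
  classical
  intro k S q
  refine ⟨uu k S q, ⟨norm_uu k S q, fun σ σ' h => inner_uu k S q σ σ' h⟩, ?_⟩
  intro g hg
  ext t
  have hR : (∑ s : {x // x ∈ S} → Fin 3,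
        (nf {x // x ∈ S} * chi s (fun j : {x // x ∈ S} => g j)) • uu k S q s).ofLp t =
      ∑ s : {x // x ∈ S} → Fin 3,
        (nf {x // x ∈ S} * chi s (fun j : {x // x ∈ S} => g j)) * uu k S q s t := by
    rw [WithLp.ofLp_sum, Finset.sum_apply]
    rfl
  rw [hR, Finset.sum_eq_single (fun j : {x // x ∈ S} => t j)]
  · rw [uu_apply, if_pos (fun _ => rfl)]
    change nf (Fin k) * chi t g = _
    have h1 : nf (Fin k) = nf {x // x ∈ S} * nfc k S := by
      rw [nf, nf, nfc, ← Complex.ofReal_mul, ← mul_inv, ← pow_add, Fintype.card_coe,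
        Finset.card_add_card_compl]
    have h2 : chi t g = chi (fun j : {x // x ∈ S} => t j) (fun j : {x // x ∈ S} => g j) *
        ∏ j ∈ Sᶜ, chi0 (t j) (q j) := by
      rw [chi, chi, ← Finset.prod_mul_prod_compl S, Finset.prod_coe_sort S
        (fun j => chi0 (t j) (g j))]
      congr 1
      refine Finset.prod_congr rfl (fun j hj => ?_)
      rw [hg j (Finset.mem_compl.1 hj)]
    rw [h1, h2]
    ring
  · intro σ _ hσ
    rw [uu_apply, if_neg, mul_zero]
    intro h
    apply hσ
    funext j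
    exact (h j).symm
  · intro h
    exact absurd (Finset.mem_univ _) h

end Pool.Agent.Helper84.RU
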